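import Pool.Agent.Helper74.FP.Goals

/-!
# F3, F1: normalized models and inversion
-/

set_option autoImplicit false

namespace Pool.Agent.Helper94.FP

open Pool.Agent.Helper52.Wq2 Pool.Agent.Helper61.NW Pool.Agent.Helper74.FP Monoid

universe u

theorem f1 : F1Stmt.{u} := by
  intro Γ _ S hS
  refine ⟨⟨Equiv.inv Γ, ?_⟩, fun x => rfl⟩
  intro a b
  show (cayL S).Adj a⁻¹ b⁻¹ ↔ (cay S).Adj a b
  rw [cayL, cay, SimpleGraph.fromRel_adj, SimpleGraph.fromRel_adj, inv_inv, inv_inv, Ne, Ne,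
    inv_inj]
  constructor
  · rintro ⟨h, h1 | h1⟩
    · refine ⟨h, Or.inr h1⟩
    · exact ⟨h, Or.inl h1⟩
  · rintro ⟨h, h1 | h1⟩
    · refine ⟨h, Or.inr h1⟩
    · exact ⟨h, Or.inl h1⟩

theorem f3 : F3Stmt.{u} := by
  rintro A B _ _ S T ⟨V, h1, h2, h3⟩
  obtain ⟨x, hx⟩ := (h1 1).1
  have hadj : ∀ b c : B, (cayL T).Adj (b * x) (c * x) ↔ (cayL T).Adj b c := by
    intro b c
    rw [cayL, SimpleGraph.fromRel_adj, SimpleGraph.fromRel_adj]
    have e1 : c * x * (b * x)⁻¹ = c * b⁻¹ := by group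
    have e2 : b * x * (c * x)⁻¹ = b * c⁻¹ := by group
    rw [e1, e2, Ne, Ne, mul_left_inj]
  refine ⟨fun a => {b | b * x ∈ V a}, ⟨?_, ?_, ?_⟩, ?_⟩
  · intro a
    obtain ⟨y, hy⟩ := (h1 a).1
    refine ⟨⟨y * x⁻¹, by show y * x⁻¹ * x ∈ V a; rwa [inv_mul_cancel_right]⟩, ?_⟩
    intro C hC hne hcl
    have h5 := (h1 a).2 {z | z * x⁻¹ ∈ C} ?_ ?_ ?_
    · intro b hb
      have h6 : b * x * x⁻¹ ∈ C := h5 hb
      rwa [mul_inv_cancel_right] at h6
    · intro z hz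
      have h6 : z * x⁻¹ * x ∈ V a := hC hz
      rwa [inv_mul_cancel_right] at h6
    · obtain ⟨c, hc⟩ := hne
      exact ⟨c * x, by show c * x * x⁻¹ ∈ C; rwa [mul_inv_cancel_right]⟩
    · intro z hz w hw hzw
      show w * x⁻¹ ∈ C
      refine hcl _ hz _ ?_ ?_
      · show w * x⁻¹ * x ∈ V a
        rwa [inv_mul_cancel_right]
      · rw [← hadj, inv_mul_cancel_right, inv_mul_cancel_right]
        exact hzw
  · intro a a' b hb hb'
    exact h2 a a' _ hb hb'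
  · intro a a' haa
    obtain ⟨b, hb, c, hc, hbc⟩ := h3 a a' haa
    refine ⟨b * x⁻¹, ?_, c * x⁻¹, ?_, ?_⟩
    · show b * x⁻¹ * x ∈ V a
      rwa [inv_mul_cancel_right]
    · show c * x⁻¹ * x ∈ V a'
      rwa [inv_mul_cancel_right]
    · rw [← hadj, inv_mul_cancel_right, inv_mul_cancel_right]
      exact hbc
  · show 1 * x ∈ V 1
    rwa [one_mul]

end Pool.Agent.Helper94.FP
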