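import Pool.Agent.Helper74.FP.Goals

/-!
# F4: free products of models
-/

set_option autoImplicit false

namespace Pool.Agent.Helper94.FP

open Pool.Agent.Helper52.Wq2 Pool.Agent.Helper61.NW Pool.Agent.Helper74.FP Monoid Monoid.CoprodI

universe u

section
variable {ι : Type} {A B : ι → Type u} [∀ i, Group (A i)] [∀ i, Group (B i)]

/-- Letterwise map of reduced words. -/
def fw (r : ∀ i, A i → B i) (hr : ∀ i a, a ≠ 1 → r i a ≠ 1) (w : Word A) : Word B where
  toList := w.toList.map (fun l => (⟨l.1, r l.1 l.2⟩ : Σ i, B i))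
  ne_one := by
    intro l hl
    rw [List.mem_map] at hl
    obtain ⟨m, hm, rfl⟩ := hl
    exact hr _ _ (w.ne_one m hm)
  chain_ne := by
    rw [List.isChain_map]
    exact w.chain_ne

theorem fstIdx_fw (r : ∀ i, A i → B i) (hr : ∀ i a, a ≠ 1 → r i a ≠ 1) (w : Word A) :
    (fw r hr w).fstIdx = w.fstIdx := by
  rcases w with ⟨l, h1, h2⟩
  cases l <;> rfl

theorem fw_inj (r : ∀ i, A i → B i) (hr : ∀ i a, a ≠ 1 → r i a ≠ 1)
    (hinj : ∀ i a a', r i a = r i a' → a = a') : Function.Injective (fw r hr) := by
  intro w w' h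
  have h1 : w.toList.map (fun l => (⟨l.1, r l.1 l.2⟩ : Σ i, B i)) =
    w'.toList.map (fun l => (⟨l.1, r l.1 l.2⟩ : Σ i, B i)) := congrArg Word.toList h
  apply Word.ext
  refine (List.map_injective_iff.2 ?_) h1
  rintro ⟨i, a⟩ ⟨j, b⟩ hab
  have h2 : i = j := congrArg Sigma.fst hab
  subst h2
  have h3 : r i a = r i b := by
    have := hab
    simp only [Sigma.mk.injEq, heq_eq_eq, true_and] at this
    exact this
  rw [hinj i a b h3]

theorem fw_rcons [∀ i, DecidableEq (A i)] [∀ i, DecidableEq (B i)]
    (r : ∀ i, A i → B i) (hr : ∀ i a, a ≠ 1 → r i a ≠ 1) (hr1 : ∀ i, r i 1 = 1)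
    {i : ι} (p : Word.Pair A i) :
    fw r hr (Word.rcons p) = Word.rcons (⟨r i p.head, fw r hr p.tail, by
      rw [fstIdx_fw]; exact p.fstIdx_ne⟩ : Word.Pair B i) := by
  by_cases h : p.head = 1
  · have h2 : r i p.head = 1 := by rw [h, hr1]
    rw [Word.rcons, dif_pos h, Word.rcons, dif_pos h2]
  · have h2 : r i p.head ≠ 1 := hr _ _ h
    rw [Word.rcons, dif_neg h, Word.rcons, dif_neg h2]
    rfl

end

theorem f4 : F4Stmt.{u} := by
  intro ι A B _ _ S T V hS hT hM h1
  classical
  have hex : ∀ i (a : A i), ∃ b : B i, b ∈ V i a ∧ (a = 1 → b = 1) := by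
    intro i a
    by_cases ha : a = 1
    · subst ha
      exact ⟨1, h1 i, fun _ => rfl⟩
    · obtain ⟨b, hb⟩ := ((hM i).1 a).1
      exact ⟨b, hb, fun h => absurd h ha⟩
  choose r hrV hr1' using hex
  have hr1 : ∀ i, r i 1 = 1 := fun i => hr1' i 1 rfl
  have hr : ∀ i (a : A i), a ≠ 1 → r i a ≠ 1 := by
    intro i a ha h
    apply ha
    refine (hM i).2.1 a 1 1 ?_ (h1 i)
    rw [← h]
    exact hrV i a
  have hinj : ∀ i (a a' : A i), r i a = r i a' → a = a' := by
    intro i a a' h
    refine (hM i).2.1 a a' (r i a) (hrV i a) ?_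
    rw [h]
    exact hrV i a'
  have hFinj := fw_inj r hr hinj
  -- adjacency of translates
  have hadj : ∀ (i : ι) (b b' : B i) (t : CoprodI B), (cayL (T i)).Adj b b' →
      (cayL (US T)).Adj (of b * t) (of b' * t) := by
    intro i b b' t h
    rw [cayL, SimpleGraph.fromRel_adj] at h
    rw [cayL, SimpleGraph.fromRel_adj]
    refine ⟨fun h2 => h.1 (of_injective i (mul_right_cancel h2)), ?_⟩
    rcases h.2 with h3 | h3
    · left
      refine ⟨i, _, h3, ?_⟩
      rw [map_mul, map_inv]
      group
    · right
      refine ⟨i, _, h3, ?_⟩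
      rw [map_mul, map_inv]
      group
  -- the centre of the branch set lies in every part
  have hcen : ∀ (w : Word A) (i : ι), (fw r hr w).prod =
      of (r i (Word.equivPair i w).head) * (fw r hr (Word.equivPair i w).tail).prod := by
    intro w i
    have h2 : w = Word.rcons (Word.equivPair i w) := by
      rw [← Word.equivPair_symm, Equiv.symm_apply_apply]
    calc (fw r hr w).prod = (fw r hr (Word.rcons (Word.equivPair i w))).prod := by rw [← h2]
      _ = _ := by
        rw [fw_rcons r hr hr1, Word.prod_rcons]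
  let φ : CoprodI A → Set (CoprodI B) := fun x =>
    {y | y = (fw r hr (Word.equiv x)).prod ∨
      ∃ i, ∃ b ∈ V i (Word.equivPair i (Word.equiv x)).head,
        y = of b * (fw r hr (Word.equivPair i (Word.equiv x)).tail).prod}
  -- membership
  have hmem : ∀ x y, y ∈ φ x → (y = 1 ∧ Word.equiv x = Word.empty) ∨
      ∃ (i : ι) (b : B i) (u : Word A) (a : A i) (hb : b ≠ 1) (hu : u.fstIdx ≠ some i),
        Word.equiv y = Word.cons b (fw r hr u) (by rw [fstIdx_fw]; exact hu) hb ∧ b ∈ V i a ∧
        Word.equiv x = Word.rcons (⟨a, u, hu⟩ : Word.Pair A i) := by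
    intro x y hy
    -- first: the case of the centre
    have hc : ∀ x y, y = (fw r hr (Word.equiv x)).prod → (y = 1 ∧ Word.equiv x = Word.empty) ∨
      ∃ (i : ι) (b : B i) (u : Word A) (a : A i) (hb : b ≠ 1) (hu : u.fstIdx ≠ some i),
        Word.equiv y = Word.cons b (fw r hr u) (by rw [fstIdx_fw]; exact hu) hb ∧ b ∈ V i a ∧
        Word.equiv x = Word.rcons (⟨a, u, hu⟩ : Word.Pair A i) := by
      intro x y hy
      have hy2 : Word.equiv y = fw r hr (Word.equiv x) := by
        rw [hy]
        exact Word.equiv.apply_symm_apply _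
      generalize hw : Word.equiv x = w at hy2 ⊢
      rw [hw] at hy
      induction w using Word.consRecOn with
      | empty =>
        left
        refine ⟨?_, rfl⟩
        rw [hy]
        rfl
      | cons i a u hu ha ih =>
        right
        refine ⟨i, r i a, u, a, hr _ _ ha, hu, ?_, hrV i a, ?_⟩
        · rw [hy2]
          rfl
        · rw [Word.rcons, dif_neg ha]
    rcases hy with hy | ⟨i, b, hb, hy⟩
    · exact hc x y hy
    · by_cases hb1 : b = 1
      · subst hb1
        have ha : (Word.equivPair i (Word.equiv x)).head = 1 := (hM i).2.1 _ _ _ hb (h1 i)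
        refine hc x y ?_
        rw [hcen (Word.equiv x) i, ha, hr1]
        exact hy
      · right
        refine ⟨i, b, (Word.equivPair i (Word.equiv x)).tail,
          (Word.equivPair i (Word.equiv x)).head, hb1, (Word.equivPair i (Word.equiv x)).fstIdx_ne,
          ?_, hb, ?_⟩
        · apply Word.equiv.symm.injective
          rw [Equiv.symm_apply_apply]
          show y = Word.prod _
          rw [Word.prod_cons]
          exact hy
        · exact ((Word.equivPair i).symm_apply_apply (Word.equiv x)).symm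
  refine ⟨φ, ?_, ?_, ?_⟩
  · intro x
    refine ⟨⟨_, Or.inl rfl⟩, ?_⟩
    intro C hC hne hcl
    -- the parts
    have hpart : ∀ (i : ι) (b b' : B i), b ∈ V i (Word.equivPair i (Word.equiv x)).head →
        b' ∈ V i (Word.equivPair i (Word.equiv x)).head →
        of b * (fw r hr (Word.equivPair i (Word.equiv x)).tail).prod ∈ C →
        of b' * (fw r hr (Word.equivPair i (Word.equiv x)).tail).prod ∈ C := by
      intro i b b' hb hb' hbC
      have h5 := ((hM i).1 (Word.equivPair i (Word.equiv x)).head).2
        {c | c ∈ V i (Word.equivPair i (Word.equiv x)).head ∧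
          of c * (fw r hr (Word.equivPair i (Word.equiv x)).tail).prod ∈ C}
        (fun c hc => hc.1) ⟨b, hb, hbC⟩ ?_
      · exact (h5 hb').2
      · intro c hc d hd hcd
        refine ⟨hd, hcl _ hc.2 _ (Or.inr ⟨i, d, hd, rfl⟩) (hadj i c d _ hcd)⟩
    have hcC : (fw r hr (Word.equiv x)).prod ∈ C := by
      obtain ⟨y, hy⟩ := hne
      rcases hC hy with h6 | ⟨i, b, hb, h6⟩
      · rw [← h6]; exact hy
      · rw [hcen (Word.equiv x) i]
        refine hpart i b _ hb (hrV _ _) ?_
        rw [← h6]
        exact hy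
    rintro z (hz | ⟨i, b, hb, hz⟩)
    · rw [hz]; exact hcC
    · rw [hz]
      refine hpart i _ b (hrV _ _) hb ?_
      rw [← hcen]
      exact hcC
  · intro x x' y hy hy'
    apply Word.equiv.injective
    rcases hmem x y hy with ⟨e1, e2⟩ | ⟨i, b, u, a, hb, hu, e1, e2, e3⟩
    · rcases hmem x' y hy' with ⟨f1, f2⟩ | ⟨j, b', u', a', hb', hu', f1, f2, f3⟩
      · rw [e2, f2]
      · exfalso
        rw [e1] at f1
        have h7 := congrArg (fun w : Word B => w.toList) f1
        have h8 : (Word.equiv (1 : CoprodI B)) = Word.empty := by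
          show (1 : CoprodI B) • (Word.empty : Word B) = _
          rw [one_smul]
        rw [h8] at h7
        simp at h7
    · rcases hmem x' y hy' with ⟨f1, f2⟩ | ⟨j, b', u', a', hb', hu', f1, f2, f3⟩
      · exfalso
        rw [f1] at e1
        have h7 := congrArg (fun w : Word B => w.toList) e1
        have h8 : (Word.equiv (1 : CoprodI B)) = Word.empty := by
          show (1 : CoprodI B) • (Word.empty : Word B) = _
          rw [one_smul]
        rw [h8] at h7
        simp at h7
      · rw [e1] at f1
        have h7 : (⟨i, b⟩ : Σ i, B i) :: (fw r hr u).toList =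
          (⟨j, b'⟩ : Σ i, B i) :: (fw r hr u').toList := congrArg Word.toList f1
        rw [List.cons.injEq] at h7
        have h8 : i = j := congrArg Sigma.fst h7.1
        subst h8
        have h9 : b = b' := by
          have := h7.1
          simp only [Sigma.mk.injEq, heq_eq_eq, true_and] at this
          exact this
        subst h9
        have h10 : u = u' := hFinj (Word.ext h7.2)
        subst h10
        have h11 : a = a' := (hM i).2.1 a a' b e2 f2
        subst h11
        rw [e3, f3]
  · -- edges
    have key : ∀ (x x' : CoprodI A), x ≠ x' → x' * x⁻¹ ∈ US S →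
        ∃ a ∈ φ x, ∃ b ∈ φ x', (cayL (US T)).Adj a b := by
      rintro x x' hne ⟨i, s, hs, hx⟩
      have hx2 : x' = of s * x := by
        rw [← hx]; group
      have hw : Word.equiv x' = of s • Word.equiv x := by
        rw [hx2]
        show (of s * x) • (Word.empty : Word A) = of s • (x • Word.empty)
        rw [mul_smul]
      have hp : Word.equivPair i (Word.equiv x') = ⟨s * (Word.equivPair i (Word.equiv x)).head,
          (Word.equivPair i (Word.equiv x)).tail, (Word.equivPair i (Word.equiv x)).fstIdx_ne⟩ := by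
        rw [hw, Word.equivPair_smul_same]
      have hs1 : s ≠ 1 := fun h => (hS i).2.2 (h ▸ hs)
      have hA : (cayL (S i)).Adj (Word.equivPair i (Word.equiv x)).head
          (s * (Word.equivPair i (Word.equiv x)).head) := by
        rw [cayL, SimpleGraph.fromRel_adj]
        refine ⟨fun h => hs1 (mul_eq_right.1 h.symm), Or.inl ?_⟩
        rw [mul_inv_cancel_right]
        exact hs
      obtain ⟨b, hb, b', hb', hbb⟩ := (hM i).2.2 _ _ hA
      refine ⟨of b * (fw r hr (Word.equivPair i (Word.equiv x)).tail).prod,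
        Or.inr ⟨i, b, hb, rfl⟩,
        of b' * (fw r hr (Word.equivPair i (Word.equiv x)).tail).prod, Or.inr ⟨i, b', ?_, ?_⟩,
        hadj i b b' _ hbb⟩
      · rw [hp]; exact hb'
      · rw [hp]
    intro x x' h
    rw [cayL, SimpleGraph.fromRel_adj] at h
    rcases h.2 with h2 | h2
    · exact key x x' h.1 h2
    · obtain ⟨a, ha, b, hb, hab⟩ := key x' x h.1.symm h2
      exact ⟨b, hb, a, ha, hab.symm⟩

end Pool.Agent.Helper94.FP
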