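import Pool.Agent.Helper74.FP.Goals

/-!
# F5: free factors
-/

set_option autoImplicit false

namespace Pool.Agent.Helper94.FP

open Pool.Agent.Helper52.Wq2 Pool.Agent.Helper61.NW Pool.Agent.Helper74.FP Monoid

universe u

theorem f5 : F5Stmt.{u} := by
  intro ι κ f B _ T hf
  have hex : ∀ k, ∃ ψ : B k →* CoprodI (fun i => B (f i)), ∀ (i : ι) (h : f i = k) (b : B (f i)),
      ψ (h ▸ b) = CoprodI.of (M := fun i => B (f i)) (i := i) b := by
    intro k
    by_cases hk : ∃ i, f i = k
    · obtain ⟨i, rfl⟩ := hk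
      refine ⟨CoprodI.of (M := fun i => B (f i)) (i := i), ?_⟩
      intro j h b
      have hj := hf h
      subst hj
      rfl
    · exact ⟨1, fun i h => absurd ⟨i, h⟩ hk⟩
  choose ψ hψ using hex
  let F : CoprodI (fun i => B (f i)) →* CoprodI B :=
    CoprodI.lift (fun i => (CoprodI.of (M := B) (i := f i)))
  let G : CoprodI B →* CoprodI (fun i => B (f i)) := CoprodI.lift ψ
  have hGF : G.comp F = MonoidHom.id _ := by
    apply CoprodI.ext_hom
    intro i
    ext b
    show G (F (CoprodI.of (M := fun i => B (f i)) (i := i) b)) =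
      CoprodI.of (M := fun i => B (f i)) (i := i) b
    have e1 : F (CoprodI.of (M := fun i => B (f i)) (i := i) b) =
      CoprodI.of (M := B) (i := f i) b := CoprodI.lift_of _ _
    rw [e1]
    have e2 : G (CoprodI.of (M := B) (i := f i) b) = ψ (f i) b := CoprodI.lift_of _ _
    rw [e2]
    exact hψ (f i) i rfl b
  have hinj : Function.Injective F := by
    intro x y h
    have h1 := congrArg G h
    have h2 : ∀ z, G (F z) = z := fun z => DFunLike.congr_fun hGF z
    rwa [h2, h2] at h1
  have key : ∀ x y, x⁻¹ * y ∈ US (A := fun i => B (f i)) (fun i => T (f i)) →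
      (F x)⁻¹ * F y ∈ US T := by
    rintro x y ⟨i, s, hs, h⟩
    refine ⟨f i, s, hs, ?_⟩
    rw [← map_inv, ← map_mul, h]
    exact CoprodI.lift_of _ _
  refine ⟨fun x => {F x}, ?_, ?_, ?_⟩
  · intro x
    refine ⟨⟨F x, rfl⟩, ?_⟩
    rintro C hC ⟨c, hc⟩ - z hz
    have h1 : c = F x := hC hc
    have h2 : z = F x := hz
    rw [h2, ← h1]
    exact hc
  · intro x y z hx hy
    have h1 : z = F x := hx
    have h2 : z = F y := hy
    exact hinj (h1 ▸ h2)
  · intro x y h
    refine ⟨F x, rfl, F y, rfl, ?_⟩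
    rw [cay, SimpleGraph.fromRel_adj] at h
    rw [cay, SimpleGraph.fromRel_adj]
    refine ⟨fun e => h.1 (hinj e), ?_⟩
    rcases h.2 with h1 | h1
    · exact Or.inl (key _ _ h1)
    · exact Or.inr (key _ _ h1)

end Pool.Agent.Helper94.FP
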